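import Mathlib

set_option autoImplicit false

/-! Eternal domination (one guard moves per attack) and Cartesian products. -/

namespace Pool.Agent.W213.ED

/-- `F` is an eternally secure family of `k`-sets (the frozen statement's condition) -/
def Sec {V : Type} [DecidableEq V] (G : SimpleGraph V) (k : ℕ) (F : Set (Finset V)) : Prop :=
  F.Nonempty ∧ ∀ D ∈ F, D.card = k ∧
    ∀ v : V, ∃ u ∈ D, (u = v ∨ G.Adj u v) ∧ insert v (D.erase u) ∈ F

/-- eternal domination number, exactly as in the frozen statement -/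
noncomputable def gam {V : Type} [DecidableEq V] (G : SimpleGraph V) : ℕ :=
  sInf {k : ℕ | ∃ F : Set (Finset V), F.Nonempty ∧ ∀ D ∈ F, D.card = k ∧
    ∀ v : V, ∃ u ∈ D, (u = v ∨ G.Adj u v) ∧ insert v (D.erase u) ∈ F}

variable {V W : Type} [Fintype V] [DecidableEq V] [Fintype W] [DecidableEq W]

/-- row `g` of a set of vertices of the product -/
def row (g : V) (D : Finset (V × W)) : Finset W := Finset.univ.filter (fun w => (g, w) ∈ D)

theorem mem_row (g : V) (D : Finset (V × W)) (w : W) : w ∈ row g D ↔ (g, w) ∈ D := by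
  unfold row
  rw [Finset.mem_filter]
  exact ⟨fun h => h.2, fun h => ⟨Finset.mem_univ _, h⟩⟩

theorem gam_mem (G : SimpleGraph V) : ∃ F : Set (Finset V), Sec G (gam G) F := by
  have hne : {k : ℕ | ∃ F : Set (Finset V), F.Nonempty ∧ ∀ D ∈ F, D.card = k ∧
      ∀ v : V, ∃ u ∈ D, (u = v ∨ G.Adj u v) ∧ insert v (D.erase u) ∈ F}.Nonempty := by
    refine ⟨(Finset.univ : Finset V).card, {Finset.univ}, ⟨_, rfl⟩, ?_⟩
    intro D hD
    rw [Set.mem_singleton_iff] at hD
    subst hD
    refine ⟨rfl, fun v => ⟨v, Finset.mem_univ _, Or.inl rfl, ?_⟩⟩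
    rw [Set.mem_singleton_iff]
    exact Finset.insert_erase (Finset.mem_univ v)
  exact Nat.sInf_mem hne

theorem gam_le (G : SimpleGraph V) (k : ℕ) (F : Set (Finset V)) (h : Sec G k F) : gam G ≤ k :=
  Nat.sInf_le ⟨F, h⟩

/-- forcing at least `gam H` guards into the row `g`, rows not adjacent to `g` are left alone, and no
other row gains a guard -/
theorem force (G : SimpleGraph V) (H : SimpleGraph W) (K : ℕ) (F : Set (Finset (V × W)))
    (hF : Sec (G.boxProd H) K F) (D : Finset (V × W)) (hD : D ∈ F) (g : V) :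
    ∃ D' ∈ F, gam H ≤ (row g D').card ∧
      (∀ g', g' ≠ g → ¬ G.Adj g' g → row g' D' = row g' D) ∧
      (∀ g', g' ≠ g → row g' D' ⊆ row g' D) := by
  classical
  -- the admissible sets
  let P : Finset (V × W) → Prop := fun E => E ∈ F ∧
    (∀ g', g' ≠ g → ¬ G.Adj g' g → row g' E = row g' D) ∧ (∀ g', g' ≠ g → row g' E ⊆ row g' D)
  have hPD : P D := ⟨hD, fun _ _ _ => rfl, fun _ _ => Finset.Subset.refl _⟩
  obtain ⟨E, hE, hmax⟩ : ∃ E, P E ∧ ∀ E', P E' → (row g E').card ≤ (row g E).card := by
    have hfin : (Finset.univ.filter (fun E : Finset (V × W) => P E)).Nonempty :=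
      ⟨D, Finset.mem_filter.mpr ⟨Finset.mem_univ _, hPD⟩⟩
    obtain ⟨E, hE, hm⟩ := Finset.exists_max_image _ (fun E => (row g E).card) hfin
    exact ⟨E, (Finset.mem_filter.mp hE).2, fun E' hE' =>
      hm E' (Finset.mem_filter.mpr ⟨Finset.mem_univ _, hE'⟩)⟩
  refine ⟨E, hE.1, ?_, hE.2.1, hE.2.2⟩
  refine gam_le H _ {S | ∃ E', P E' ∧ (row g E').card = (row g E).card ∧ S = row g E'} ?_
  refine ⟨⟨row g E, E, hE, rfl, rfl⟩, ?_⟩
  rintro S ⟨E', hE', hc, rfl⟩
  refine ⟨hc, fun v => ?_⟩
  obtain ⟨hcard, hatt⟩ := hF.2 E' hE'.1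
  obtain ⟨u, huE, hadj, hnew⟩ := hatt (g, v)
  by_cases hv : (g, v) ∈ E'
  · -- occupied: stay
    refine ⟨v, (mem_row g E' v).mpr hv, Or.inl rfl, ?_⟩
    rw [Finset.insert_erase ((mem_row g E' v).mpr hv)]
    exact ⟨E', hE', hc, rfl⟩
  · have huv : u ≠ (g, v) := fun h => hv (h ▸ huE)
    have hA : (G.boxProd H).Adj u (g, v) := by
      rcases hadj with h | h
      · exact absurd h huv
      · exact h
    rw [SimpleGraph.boxProd_adj] at hA
    obtain ⟨u1, u2⟩ := u
    simp only at hA
    have hrow_other : ∀ g', g' ≠ g → row g' (insert (g, v) (E'.erase (u1, u2))) ⊆ row g' E' := by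
      intro g' hg' w hw
      rw [mem_row, Finset.mem_insert, Finset.mem_erase] at hw
      rw [mem_row]
      rcases hw with hw | hw
      · exact absurd (congrArg Prod.fst hw) hg'
      · exact hw.2
    have hrow_same : ∀ g', g' ≠ g → g' ≠ u1 →
        row g' (insert (g, v) (E'.erase (u1, u2))) = row g' E' := by
      intro g' hg' hu
      apply Finset.Subset.antisymm (hrow_other g' hg')
      intro w hw
      rw [mem_row] at hw
      rw [mem_row, Finset.mem_insert, Finset.mem_erase]
      exact Or.inr ⟨fun h => hu (congrArg Prod.fst h), hw⟩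
    have hP' : P (insert (g, v) (E'.erase (u1, u2))) := by
      refine ⟨hnew, ?_, ?_⟩
      · intro g' hg' hn
        rw [← hE'.2.1 g' hg' hn]
        apply hrow_same g' hg'
        intro h
        subst h
        rcases hA with ⟨h1, h2⟩ | ⟨h1, h2⟩
        · exact hn h1
        · exact hg' h2
      · intro g' hg'
        exact (hrow_other g' hg').trans (hE'.2.2 g' hg')
    rcases hA with ⟨h1, h2⟩ | ⟨h1, h2⟩
    · -- a guard from another row: the row would grow
      exfalso
      have hne : g ≠ u1 := fun h => G.loopless.irrefl g (by rw [← h] at h1; exact h1)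
      have h3 : row g (insert (g, v) (E'.erase (u1, u2))) = insert v (row g E') := by
        ext w
        rw [mem_row, Finset.mem_insert, Finset.mem_erase, Finset.mem_insert, mem_row]
        constructor
        · rintro (h | h)
          · exact Or.inl (congrArg Prod.snd h)
          · exact Or.inr h.2
        · rintro (h | h)
          · exact Or.inl (by rw [h])
          · exact Or.inr ⟨fun e => hne (congrArg Prod.fst e), h⟩
      have h4 := hmax _ hP'
      rw [h3, Finset.card_insert_of_notMem (by rw [mem_row]; exact hv)] at h4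
      omega
    · -- a guard from the same row
      subst h2
      refine ⟨u2, (mem_row _ E' u2).mpr huE, Or.inr h1, ?_⟩
      refine ⟨_, hP', ?_, ?_⟩
      · have h3 : row u1 (insert (u1, v) (E'.erase (u1, u2))) = insert v ((row u1 E').erase u2) := by
          ext w
          rw [mem_row, Finset.mem_insert, Finset.mem_erase, Finset.mem_insert, Finset.mem_erase,
            mem_row]
          constructor
          · rintro (h | h)
            · exact Or.inl (congrArg Prod.snd h)
            · exact Or.inr ⟨fun e => h.1 (by rw [e]), h.2⟩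
          · rintro (h | h)
            · exact Or.inl (by rw [h])
            · exact Or.inr ⟨fun e => h.1 (congrArg Prod.snd e), h.2⟩
        rw [h3, Finset.card_insert_of_notMem, Finset.card_erase_of_mem ((mem_row _ E' u2).mpr huE), hc]
        · have : 0 < (row u1 E').card := Finset.card_pos.mpr ⟨u2, (mem_row _ E' u2).mpr huE⟩
          omega
        · rw [Finset.mem_erase, mem_row]
          exact fun h => hv h.2
      · ext w
        rw [mem_row, Finset.mem_insert, Finset.mem_erase, Finset.mem_insert, Finset.mem_erase,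
          mem_row]
        constructor
        · rintro (h | h)
          · exact Or.inl (by rw [h])
          · exact Or.inr ⟨fun e => h.1 (congrArg Prod.snd e), h.2⟩
        · rintro (h | h)
          · exact Or.inl (congrArg Prod.snd h)
          · exact Or.inr ⟨fun e => h.1 (by rw [e]), h.2⟩

theorem card_rows (D : Finset (V × W)) (I : Finset V) : ∑ g ∈ I, (row g D).card ≤ D.card := by
  classical
  have h : ∑ g ∈ I, (row g D).card = (I.sigma (fun g => row g D)).card := by
    rw [Finset.card_sigma]
  rw [h]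
  apply Finset.card_le_card_of_injOn (fun x : (Σ _ : V, W) => (x.1, x.2))
  · intro x hx
    rw [Finset.mem_coe, Finset.mem_sigma] at hx
    exact (mem_row _ _ _).mp hx.2
  · rintro ⟨a, b⟩ _ ⟨c, d⟩ _ h
    simp only [Prod.mk.injEq] at h
    obtain ⟨rfl, rfl⟩ := h
    rfl

theorem indep_bound (G : SimpleGraph V) (H : SimpleGraph W) (I : Finset V)
    (hI : ∀ x ∈ I, ∀ y ∈ I, ¬ G.Adj x y) : I.card * gam H ≤ gam (G.boxProd H) := by
  classical
  obtain ⟨F, hF⟩ := gam_mem (G.boxProd H)
  have key : ∀ J : Finset V, J ⊆ I → ∃ D ∈ F, ∀ g ∈ J, gam H ≤ (row g D).card := by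
    intro J
    induction J using Finset.induction_on with
    | empty => intro _; obtain ⟨D, hD⟩ := hF.1; exact ⟨D, hD, fun g hg => absurd hg (Finset.notMem_empty g)⟩
    | insert g J hg ih =>
      intro hJ
      obtain ⟨D, hD, hb⟩ := ih (fun x hx => hJ (Finset.mem_insert_of_mem hx))
      obtain ⟨D', hD', h1, h2, _⟩ := force G H _ F hF D hD g
      refine ⟨D', hD', ?_⟩
      intro x hx
      rw [Finset.mem_insert] at hx
      rcases hx with rfl | hx
      · exact h1
      · have hne : x ≠ g := fun h => hg (h ▸ hx)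
        rw [h2 x hne (hI x (hJ (Finset.mem_insert_of_mem hx)) g (hJ (Finset.mem_insert_self _ _)))]
        exact hb x hx
  obtain ⟨D, hD, hb⟩ := key I (Finset.Subset.refl _)
  calc I.card * gam H = ∑ _g ∈ I, gam H := by rw [Finset.sum_const, smul_eq_mul]
    _ ≤ ∑ g ∈ I, (row g D).card := Finset.sum_le_sum hb
    _ ≤ D.card := card_rows D I
    _ = gam (G.boxProd H) := (hF.2 D hD).1

end Pool.Agent.W213.ED
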