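import Pool.Agent.W213.ED.Star

set_option autoImplicit false

namespace Pool.Agent.W213.ED

/-- the eternal domination number is monotone under induced subgraphs -/
theorem gam_mono {V' V : Type} [Fintype V'] [DecidableEq V'] [Fintype V] [DecidableEq V]
    (G : SimpleGraph V) (e : V' → V) (he : Function.Injective e) : gam (G.comap e) ≤ gam G := by
  classical
  obtain ⟨F, hF⟩ := gam_mem G
  let ins : Finset V → Finset V' := fun D => Finset.univ.filter (fun x => e x ∈ D)
  have mem_ins : ∀ D x, x ∈ ins D ↔ e x ∈ D := by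
    intro D x
    simp only [ins, Finset.mem_filter, Finset.mem_univ, true_and]
  obtain ⟨E, hE, hmax⟩ : ∃ E, E ∈ F ∧ ∀ E' ∈ F, (ins E').card ≤ (ins E).card := by
    obtain ⟨D, hD⟩ := hF.1
    have hfin : (Finset.univ.filter (fun E : Finset V => E ∈ F)).Nonempty :=
      ⟨D, Finset.mem_filter.mpr ⟨Finset.mem_univ _, hD⟩⟩
    obtain ⟨E, hE, hm⟩ := Finset.exists_max_image _ (fun E => (ins E).card) hfin
    exact ⟨E, (Finset.mem_filter.mp hE).2, fun E' hE' =>
      hm E' (Finset.mem_filter.mpr ⟨Finset.mem_univ _, hE'⟩)⟩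
  have hle : (ins E).card ≤ gam G := by
    rw [← (hF.2 E hE).1]
    exact Finset.card_le_card_of_injOn e (fun x hx => (mem_ins E x).mp hx) he.injOn
  refine le_trans (gam_le (G.comap e) _ {S | ∃ E' ∈ F, (ins E').card = (ins E).card ∧ S = ins E'} ?_) hle
  refine ⟨⟨ins E, E, hE, rfl, rfl⟩, ?_⟩
  rintro S ⟨E', hE', hc, rfl⟩
  refine ⟨hc, fun v => ?_⟩
  by_cases hv : e v ∈ E'
  · refine ⟨v, (mem_ins E' v).mpr hv, Or.inl rfl, ?_⟩
    rw [Finset.insert_erase ((mem_ins E' v).mpr hv)]
    exact ⟨E', hE', hc, rfl⟩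
  obtain ⟨u, huE, hadj, hnew⟩ := (hF.2 E' hE').2 (e v)
  have hA : G.Adj u (e v) := by
    rcases hadj with h | h
    · exact absurd (h ▸ huE) hv
    · exact h
  by_cases hu : ∃ u', e u' = u
  · obtain ⟨u', rfl⟩ := hu
    have hu' : u' ∈ ins E' := (mem_ins E' u').mpr huE
    have h3 : ins (insert (e v) (E'.erase (e u'))) = insert v ((ins E').erase u') := by
      ext w
      rw [mem_ins, Finset.mem_insert, Finset.mem_erase, Finset.mem_insert, Finset.mem_erase, mem_ins]
      constructor
      · rintro (h | h)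
        · exact Or.inl (he h)
        · exact Or.inr ⟨fun h' => h.1 (by rw [h']), h.2⟩
      · rintro (h | h)
        · exact Or.inl (by rw [h])
        · exact Or.inr ⟨fun h' => h.1 (he h'), h.2⟩
    refine ⟨u', hu', Or.inr hA, _, hnew, ?_, h3.symm⟩
    rw [h3, Finset.card_insert_of_notMem, Finset.card_erase_of_mem hu', hc]
    · have : 0 < (ins E').card := Finset.card_pos.mpr ⟨u', hu'⟩
      omega
    · rw [Finset.mem_erase, mem_ins]
      exact fun h => hv h.2
  · exfalso
    have h3 : ins (insert (e v) (E'.erase u)) = insert v (ins E') := by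
      ext w
      rw [mem_ins, Finset.mem_insert, Finset.mem_erase, Finset.mem_insert, mem_ins]
      constructor
      · rintro (h | h)
        · exact Or.inl (he h)
        · exact Or.inr h.2
      · rintro (h | h)
        · exact Or.inl (by rw [h])
        · exact Or.inr ⟨fun h' => hu ⟨w, h'⟩, h⟩
    have h4 := hmax _ hnew
    rw [h3, Finset.card_insert_of_notMem (by rw [mem_ins]; exact hv)] at h4
    omega

theorem prod_mono {V' V W : Type} [Fintype V'] [DecidableEq V'] [Fintype V] [DecidableEq V]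
    [Fintype W] [DecidableEq W] (G : SimpleGraph V) (H : SimpleGraph W) (e : V' → V)
    (he : Function.Injective e) : gam ((G.comap e).boxProd H) ≤ gam (G.boxProd H) := by
  have h := gam_mono (G.boxProd H) (fun x : V' × W => (e x.1, x.2)) (by
    rintro ⟨a, b⟩ ⟨c, d⟩ h
    simp only [Prod.mk.injEq] at h
    rw [he h.1, h.2])
  have e1 : (G.boxProd H).comap (fun x : V' × W => (e x.1, x.2)) = (G.comap e).boxProd H := by
    ext x y
    simp only [SimpleGraph.comap_adj, SimpleGraph.boxProd_adj]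
    constructor
    · rintro (⟨h1, h2⟩ | ⟨h1, h2⟩)
      · exact Or.inl ⟨h1, h2⟩
      · exact Or.inr ⟨h1, he h2⟩
    · rintro (⟨h1, h2⟩ | ⟨h1, h2⟩)
      · exact Or.inl ⟨h1, h2⟩
      · exact Or.inr ⟨h1, by rw [h2]⟩
  rwa [e1] at h

end Pool.Agent.W213.ED
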