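import Pool.Agent.W213.ED.Core

set_option autoImplicit false

namespace Pool.Agent.W213.ED

variable {V W : Type} [Fintype V] [DecidableEq V] [Fintype W] [DecidableEq W]

/-- supply lemma -/
theorem supply (G : SimpleGraph V) (H : SimpleGraph W) (K : ℕ) (F : Set (Finset (V × W)))
    (hF : Sec (G.boxProd H) K F) (D : Finset (V × W)) (hD : D ∈ F) (I Z : Finset V)
    (hI : ∀ x ∈ I, ∀ y ∈ I, ¬ G.Adj x y) (hZ : ∀ z ∈ Z, ∀ x ∈ I, z ≠ x ∧ ¬ G.Adj z x) :
    I.card * gam H + ∑ z ∈ Z, (row z D).card ≤ K := by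
  classical
  have key : ∀ J : Finset V, J ⊆ I → ∃ D' ∈ F, (∀ g ∈ J, gam H ≤ (row g D').card) ∧
      ∀ z ∈ Z, row z D' = row z D := by
    intro J
    induction J using Finset.induction_on with
    | empty => intro _; exact ⟨D, hD, fun g hg => absurd hg (Finset.notMem_empty g), fun _ _ => rfl⟩
    | insert g J hg ih =>
      intro hJ
      obtain ⟨D1, hD1, hb, hz⟩ := ih (fun x hx => hJ (Finset.mem_insert_of_mem hx))
      obtain ⟨D', hD', h1, h2, _⟩ := force G H K F hF D1 hD1 g
      have hgI : g ∈ I := hJ (Finset.mem_insert_self _ _)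
      refine ⟨D', hD', ?_, ?_⟩
      · intro x hx
        rw [Finset.mem_insert] at hx
        rcases hx with rfl | hx
        · exact h1
        · have hne : x ≠ g := fun h => hg (h ▸ hx)
          rw [h2 x hne (hI x (hJ (Finset.mem_insert_of_mem hx)) g hgI)]
          exact hb x hx
      · intro z hzz
        rw [h2 z (hZ z hzz g hgI).1 (hZ z hzz g hgI).2]
        exact hz z hzz
  obtain ⟨D', hD', hb, hz⟩ := key I (Finset.Subset.refl _)
  have hdis : Disjoint I Z := by
    rw [Finset.disjoint_left]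
    intro x hx hxZ
    exact (hZ x hxZ x hx).1 rfl
  calc I.card * gam H + ∑ z ∈ Z, (row z D).card
      = ∑ _g ∈ I, gam H + ∑ z ∈ Z, (row z D').card := by
        rw [Finset.sum_const, smul_eq_mul]
        congr 1
        exact Finset.sum_congr rfl (fun z hzz => by rw [hz z hzz])
    _ ≤ ∑ g ∈ I, (row g D').card + ∑ z ∈ Z, (row z D').card :=
        Nat.add_le_add_right (Finset.sum_le_sum hb) _
    _ = ∑ g ∈ I ∪ Z, (row g D').card := (Finset.sum_union hdis).symm
    _ ≤ D'.card := card_rows D' _
    _ = K := (hF.2 D' hD').1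

theorem card_rows_eq (D : Finset (V × W)) : ∑ g : V, (row g D).card = D.card := by
  classical
  apply le_antisymm (card_rows D _)
  have h : ∑ g : V, (row g D).card = ((Finset.univ : Finset V).sigma (fun g => row g D)).card := by
    rw [Finset.card_sigma]
  rw [h]
  apply Finset.card_le_card_of_injOn (fun x : V × W => (⟨x.1, x.2⟩ : Σ _ : V, W))
  · intro x hx
    rw [Finset.mem_coe, Finset.mem_sigma]
    exact ⟨Finset.mem_univ _, (mem_row _ _ _).mpr hx⟩
  · rintro ⟨a, b⟩ _ ⟨c, d⟩ _ h
    simp only [Sigma.mk.injEq, heq_eq_eq] at h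
    obtain ⟨rfl, rfl⟩ := h
    rfl

/-- bound from a vertex `r` whose only neighbours are the two nonadjacent vertices `p, q` -/
theorem deg2_bound (G : SimpleGraph V) (H : SimpleGraph W) (p q r : V) (hpq : p ≠ q)
    (hpr : p ≠ r) (hqr : q ≠ r) (hnpq : ¬ G.Adj p q) (hr : ∀ x, G.Adj x r → x = p ∨ x = q)
    (I J : Finset V) (hI : ∀ x ∈ I, ∀ y ∈ I, ¬ G.Adj x y) (hJ : ∀ x ∈ J, ∀ y ∈ J, ¬ G.Adj x y)
    (hIp : ∀ x ∈ I, x ≠ p ∧ x ≠ q ∧ x ≠ r ∧ ¬ G.Adj p x)
    (hJq : ∀ x ∈ J, x ≠ p ∧ x ≠ q ∧ x ≠ r ∧ ¬ G.Adj q x) :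
    (I.card + J.card + 3) * gam H ≤ 2 * gam (G.boxProd H) := by
  classical
  obtain ⟨F, hF⟩ := gam_mem (G.boxProd H)
  set K := gam (G.boxProd H) with hK
  set b := gam H with hb
  obtain ⟨D0, hD0⟩ := hF.1
  obtain ⟨Da, hDa, ha1, _, _⟩ := force G H K F hF D0 hD0 p
  obtain ⟨D1, hD1, h11, h12, _⟩ := force G H K F hF Da hDa q
  have h1p : b ≤ (row p D1).card := by rw [h12 p hpq hnpq]; exact ha1
  obtain ⟨D2, hD2, h21, h22, _⟩ := force G H K F hF D1 hD1 r
  have hrI : ∀ x ∈ I, ¬ G.Adj r x := fun x hx h => by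
    rcases hr x h.symm with h' | h'
    · exact (hIp x hx).1 h'
    · exact (hIp x hx).2.1 h'
  have hrJ : ∀ x ∈ J, ¬ G.Adj r x := fun x hx h => by
    rcases hr x h.symm with h' | h'
    · exact (hJq x hx).1 h'
    · exact (hJq x hx).2.1 h'
  have e1 := supply G H K F hF D2 hD2 I {r, p} hI (by
    intro z hz x hx
    rw [Finset.mem_insert, Finset.mem_singleton] at hz
    rcases hz with rfl | rfl
    · exact ⟨fun h => (hIp x hx).2.2.1 h.symm, hrI x hx⟩
    · exact ⟨fun h => (hIp x hx).1 h.symm, (hIp x hx).2.2.2⟩)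
  have e2 := supply G H K F hF D2 hD2 J {r, q} hJ (by
    intro z hz x hx
    rw [Finset.mem_insert, Finset.mem_singleton] at hz
    rcases hz with rfl | rfl
    · exact ⟨fun h => (hJq x hx).2.2.1 h.symm, hrJ x hx⟩
    · exact ⟨fun h => (hJq x hx).2.1 h.symm, (hJq x hx).2.2.2⟩)
  rw [Finset.sum_pair hpr.symm] at e1
  rw [Finset.sum_pair hqr.symm] at e2
  -- conservation
  have c1 := card_rows_eq D1
  have c2 := card_rows_eq D2
  rw [(hF.2 D1 hD1).1] at c1
  rw [(hF.2 D2 hD2).1] at c2
  have split : ∀ D : Finset (V × W), ∑ g : V, (row g D).card =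
      ((row p D).card + ((row q D).card + (row r D).card)) +
        ∑ g ∈ (Finset.univ \ {p, q, r} : Finset V), (row g D).card := by
    intro D
    rw [← Finset.sum_sdiff (Finset.subset_univ ({p, q, r} : Finset V)), add_comm]
    congr 1
    rw [Finset.sum_insert, Finset.sum_insert, Finset.sum_singleton]
    · rw [Finset.mem_singleton]; exact hqr
    · rw [Finset.mem_insert, Finset.mem_singleton]
      rintro (h | h)
      · exact hpq h
      · exact hpr h
  have hrest : ∑ g ∈ (Finset.univ \ {p, q, r} : Finset V), (row g D2).card =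
      ∑ g ∈ (Finset.univ \ {p, q, r} : Finset V), (row g D1).card := by
    apply Finset.sum_congr rfl
    intro g hg
    rw [Finset.mem_sdiff, Finset.mem_insert, Finset.mem_insert, Finset.mem_singleton] at hg
    have hg' := hg.2
    push Not at hg'
    rw [h22 g hg'.2.2 (fun h => by
      rcases hr g h with h' | h'
      · exact hg'.1 h'
      · exact hg'.2.1 h')]
  rw [split D1] at c1
  rw [split D2, hrest] at c2
  have e3 : (I.card + J.card + 3) * b = I.card * b + J.card * b + 3 * b := by ring
  rw [e3]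
  rw [← hb] at e1 e2
  omega

theorem cyc_adj (n : ℕ) (u v : Fin n) : (SimpleGraph.cycleGraph n).Adj u v →
    (u.val + 1 = v.val ∨ v.val + 1 = u.val ∨ (u.val = 0 ∧ v.val + 1 = n) ∨
      (v.val = 0 ∧ u.val + 1 = n)) := by
  intro h
  rw [SimpleGraph.cycleGraph_adj'] at h
  have hu := u.isLt
  have hv := v.isLt
  have key : ∀ a b : Fin n, (a - b).val = 1 → (b.val + 1 = a.val ∨ (a.val = 0 ∧ b.val + 1 = n)) := by
    intro a b hab
    have ha := a.isLt
    have hb := b.isLt
    by_cases hle : b ≤ a
    · rw [Fin.sub_val_of_le hle] at hab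
      have : b.val ≤ a.val := hle
      omega
    · have hlt : a.val < b.val := not_le.mp hle
      rw [Fin.sub_def] at hab
      simp only at hab
      rw [Nat.mod_eq_of_lt (by omega)] at hab
      omega
  rcases h with h | h
  · rcases key u v h with h | h <;> omega
  · rcases key v u h with h | h <;> omega

theorem odd_bound (H : SimpleGraph W) (k : ℕ) (hk : 2 ≤ k) :
    (2 * k + 1) * gam H ≤ 2 * gam ((SimpleGraph.cycleGraph (2 * k + 1)).boxProd H) := by
  classical
  have hlt : ∀ j : ℕ, j < k - 1 → 2 * j + 4 < 2 * k + 1 := fun j hj => by omega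
  let fI : Fin (k - 1) → Fin (2 * k + 1) := fun j => ⟨2 * j.val + 3, by have := j.isLt; omega⟩
  let fJ : Fin (k - 1) → Fin (2 * k + 1) := fun j => ⟨2 * j.val + 4, by have := j.isLt; omega⟩
  have injI : Function.Injective fI := by
    intro a b h
    have := congrArg Fin.val h
    simp only [fI] at this
    exact Fin.ext (by omega)
  have injJ : Function.Injective fJ := by
    intro a b h
    have := congrArg Fin.val h
    simp only [fJ] at this
    exact Fin.ext (by omega)
  have h := deg2_bound (SimpleGraph.cycleGraph (2 * k + 1)) H ⟨0, by omega⟩ ⟨2, by omega⟩ ⟨1, by omega⟩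
    (by simp [Fin.ext_iff]) (by simp [Fin.ext_iff]) (by simp [Fin.ext_iff])
    (by
      intro h
      have := cyc_adj _ _ _ h
      simp only at this
      omega)
    (by
      intro x hx
      have := cyc_adj _ _ _ hx
      simp only at this
      have hx' := x.isLt
      rw [Fin.ext_iff, Fin.ext_iff]
      simp only
      omega)
    (Finset.univ.image fI) (Finset.univ.image fJ)
    (by
      intro x hx y hy h
      rw [Finset.mem_image] at hx hy
      obtain ⟨a, _, rfl⟩ := hx
      obtain ⟨c, _, rfl⟩ := hy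
      have := cyc_adj _ _ _ h
      have ha := a.isLt
      have hc := c.isLt
      simp only [fI] at this
      omega)
    (by
      intro x hx y hy h
      rw [Finset.mem_image] at hx hy
      obtain ⟨a, _, rfl⟩ := hx
      obtain ⟨c, _, rfl⟩ := hy
      have := cyc_adj _ _ _ h
      have ha := a.isLt
      have hc := c.isLt
      simp only [fJ] at this
      omega)
    (by
      intro x hx
      rw [Finset.mem_image] at hx
      obtain ⟨a, _, rfl⟩ := hx
      have ha := a.isLt
      simp only [fI, ne_eq, Fin.ext_iff]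
      refine ⟨by omega, by omega, by omega, ?_⟩
      intro h
      have := cyc_adj _ _ _ h
      simp only at this
      omega)
    (by
      intro x hx
      rw [Finset.mem_image] at hx
      obtain ⟨a, _, rfl⟩ := hx
      have ha := a.isLt
      simp only [fJ, ne_eq, Fin.ext_iff]
      refine ⟨by omega, by omega, by omega, ?_⟩
      intro h
      have := cyc_adj _ _ _ h
      simp only at this
      omega)
  rw [Finset.card_image_of_injective _ injI, Finset.card_image_of_injective _ injJ] at h
  simp only [Finset.card_univ, Fintype.card_fin] at h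
  have e : k - 1 + (k - 1) + 3 = 2 * k + 1 := by omega
  rw [e] at h
  exact h

end Pool.Agent.W213.ED
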