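import Pool.Agent.W213.ED.Odd

set_option autoImplicit false

namespace Pool.Agent.W213.ED

variable {V W : Type} [Fintype V] [DecidableEq V] [Fintype W] [DecidableEq W]

/-- bound from a vertex `r` all of whose neighbours lie in the independent set `P` -/
theorem star_bound (G : SimpleGraph V) (H : SimpleGraph W) (r : V) (P : Finset V) (I : V → Finset V)
    (hP0 : P.Nonempty) (hrP : r ∉ P) (hP : ∀ x ∈ P, ∀ y ∈ P, ¬ G.Adj x y)
    (hr : ∀ x, G.Adj x r → x ∈ P)
    (hI : ∀ p ∈ P, ∀ x ∈ I p, ∀ y ∈ I p, ¬ G.Adj x y)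
    (hIp : ∀ p ∈ P, ∀ x ∈ I p, x ∉ P ∧ x ≠ r ∧ ¬ G.Adj p x) :
    ((∑ p ∈ P, (I p).card) + 2 * P.card) * gam H ≤ P.card * gam (G.boxProd H) + gam H := by
  classical
  obtain ⟨F, hF⟩ := gam_mem (G.boxProd H)
  -- force all rows of `P`
  have key : ∀ J : Finset V, J ⊆ P → ∃ D ∈ F, ∀ g ∈ J, gam H ≤ (row g D).card := by
    intro J
    induction J using Finset.induction_on with
    | empty => intro _; obtain ⟨D, hD⟩ := hF.1; exact ⟨D, hD, fun g hg => absurd hg (Finset.notMem_empty g)⟩
    | insert g J hg ih =>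
      intro hJ
      obtain ⟨D, hD, hb⟩ := ih (fun x hx => hJ (Finset.mem_insert_of_mem hx))
      obtain ⟨D', hD', h1, h2, _⟩ := force G H _ F hF D hD g
      refine ⟨D', hD', ?_⟩
      intro x hx
      rw [Finset.mem_insert] at hx
      rcases hx with rfl | hx
      · exact h1
      · have hne : x ≠ g := fun h => hg (h ▸ hx)
        rw [h2 x hne (hP x (hJ (Finset.mem_insert_of_mem hx)) g (hJ (Finset.mem_insert_self _ _)))]
        exact hb x hx
  obtain ⟨D1, hD1, h11⟩ := key P (Finset.Subset.refl _)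
  obtain ⟨D2, hD2, h21, h22, _⟩ := force G H _ F hF D1 hD1 r
  have e : ∀ p ∈ P, (I p).card * gam H + ((row r D2).card + (row p D2).card) ≤
      gam (G.boxProd H) := by
    intro p hp
    have hpr : r ≠ p := fun h => hrP (h ▸ hp)
    have e1 := supply G H _ F hF D2 hD2 (I p) {r, p} (hI p hp) (by
      intro z hz x hx
      rw [Finset.mem_insert, Finset.mem_singleton] at hz
      have h3 := hIp p hp x hx
      rcases hz with rfl | rfl
      · exact ⟨fun h => h3.2.1 h.symm, fun h => h3.1 (hr x h.symm)⟩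
      · exact ⟨fun h => h3.1 (h ▸ hp), h3.2.2⟩)
    rwa [Finset.sum_pair hpr] at e1
  have es := Finset.sum_le_sum e
  rw [Finset.sum_add_distrib, Finset.sum_add_distrib, Finset.sum_const, Finset.sum_const,
    smul_eq_mul, smul_eq_mul, ← Finset.sum_mul] at es
  -- conservation
  have c1 := card_rows_eq D1
  have c2 := card_rows_eq D2
  rw [(hF.2 D1 hD1).1] at c1
  rw [(hF.2 D2 hD2).1] at c2
  have split : ∀ D : Finset (V × W), ∑ g : V, (row g D).card =
      ((row r D).card + ∑ p ∈ P, (row p D).card) +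
        ∑ g ∈ (Finset.univ \ insert r P : Finset V), (row g D).card := by
    intro D
    rw [← Finset.sum_sdiff (Finset.subset_univ (insert r P : Finset V)), add_comm]
    congr 1
    rw [Finset.sum_insert hrP]
  have hrest : ∑ g ∈ (Finset.univ \ insert r P : Finset V), (row g D2).card =
      ∑ g ∈ (Finset.univ \ insert r P : Finset V), (row g D1).card := by
    apply Finset.sum_congr rfl
    intro g hg
    rw [Finset.mem_sdiff, Finset.mem_insert] at hg
    have hg' := hg.2
    push Not at hg'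
    rw [h22 g hg'.1 (fun h => hg'.2 (hr g h))]
  rw [split D1] at c1
  rw [split D2, hrest] at c2
  have hs1 : P.card * gam H ≤ ∑ p ∈ P, (row p D1).card := by
    have := Finset.sum_le_sum h11
    rwa [Finset.sum_const, smul_eq_mul] at this
  obtain ⟨m, hm⟩ : ∃ m, P.card = m + 1 := ⟨P.card - 1, by have := hP0.card_pos; omega⟩
  have h5 : m * gam H ≤ m * (row r D2).card := Nat.mul_le_mul_left m h21
  rw [hm] at es hs1 ⊢
  have e6 : ((∑ p ∈ P, (I p).card) + 2 * (m + 1)) * gam H =
      (∑ p ∈ P, (I p).card) * gam H + (m + 1) * gam H + m * gam H + gam H := by ring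
  have e7 : (m + 1) * (row r D2).card = m * (row r D2).card + (row r D2).card := by ring
  rw [e7] at es
  rw [e6]
  omega

/-- if moreover every `I p ∪ {p}` has `a` elements, `γ∞(G) ≤ a + 1` and `γ∞(H) < |P|`, the product
inequality holds -/
theorem star_exact (G : SimpleGraph V) (H : SimpleGraph W) (r : V) (P : Finset V) (I : V → Finset V)
    (a : ℕ) (hP0 : P.Nonempty) (hrP : r ∉ P) (hP : ∀ x ∈ P, ∀ y ∈ P, ¬ G.Adj x y)
    (hr : ∀ x, G.Adj x r → x ∈ P)
    (hI : ∀ p ∈ P, ∀ x ∈ I p, ∀ y ∈ I p, ¬ G.Adj x y)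
    (hIp : ∀ p ∈ P, ∀ x ∈ I p, x ∉ P ∧ x ≠ r ∧ ¬ G.Adj p x)
    (hIa : ∀ p ∈ P, (I p).card + 1 = a) (hG : gam G ≤ a + 1) (hH : gam H < P.card) :
    gam G * gam H ≤ gam (G.boxProd H) := by
  have h := star_bound G H r P I hP0 hrP hP hr hI hIp
  have hs : (∑ p ∈ P, (I p).card) + P.card = P.card * a := by
    have : ∑ p ∈ P, ((I p).card + 1) = ∑ _p ∈ P, a := Finset.sum_congr rfl hIa
    rw [Finset.sum_add_distrib, Finset.sum_const, Finset.sum_const, smul_eq_mul, smul_eq_mul,
      mul_one] at this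
    exact this
  have e : (∑ p ∈ P, (I p).card) + 2 * P.card = P.card * (a + 1) := by
    rw [mul_add, mul_one]; omega
  rw [e] at h
  have h2 : gam G * gam H ≤ (a + 1) * gam H := Nat.mul_le_mul_right _ hG
  refine h2.trans ?_
  by_contra hc
  push Not at hc
  have h3 : P.card * (gam (G.boxProd H) + 1) ≤ P.card * ((a + 1) * gam H) := Nat.mul_le_mul_left _ hc
  rw [mul_add, mul_one, ← mul_assoc] at h3
  omega

end Pool.Agent.W213.ED
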